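import Mathlib

-- part Pool.Agent.Lib.MP_fe1952_nt.Wilson
section

/-! Wilson's congruence modulo the cube of a prime of `F[X]`. -/

open Polynomial Finset

namespace Pool.Agent.Lib.MP_fe1952_nt

variable {F : Type} [Field F] [Fintype F]

lemma low_finite (d : ℕ) : {a : F[X] | a.degree < d}.Finite := by
  have : Finite (degreeLT F d) := Finite.of_equiv _ (degreeLTEquiv F d).toEquiv.symm
  exact (Set.toFinite (degreeLT F d : Set F[X])).subset fun a ha => mem_degreeLT.2 ha

/-- the polynomials of degree below `d` -/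
noncomputable def low (F : Type) [Field F] [Fintype F] (d : ℕ) : Finset F[X] :=
  (low_finite (F := F) d).toFinset

lemma mem_low {d : ℕ} {a : F[X]} : a ∈ low F d ↔ a.degree < d := by simp [low]

lemma card_low (d : ℕ) : (low F d).card = Fintype.card F ^ d := by
  have h : Nat.card (degreeLT F d) = Nat.card (Fin d → F) :=
    Nat.card_congr (degreeLTEquiv F d).toEquiv
  rw [Nat.card_fun, Nat.card_eq_fintype_card (α := F), Nat.card_eq_fintype_card (α := Fin d),
    Fintype.card_fin] at h
  rw [← h, ← Nat.card_eq_finsetCard]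
  exact Nat.card_congr (Equiv.subtypeEquivRight fun a => mem_low.trans mem_degreeLT.symm)

lemma frob_pow (R : Type) [CommRing R] [Algebra F R] (j : ℕ) (x : R) :
    (FiniteField.frobeniusAlgHom F R ^ j) x = x ^ Fintype.card F ^ j := by
  rw [AlgHom.coe_pow, FiniteField.coe_frobeniusAlgHom, pow_iterate]

lemma exists_lin (d : ℕ) : ∃ c : ℕ → F[X], c d = 1 ∧ (∀ j, d < j → c j = 0) ∧
    ∀ a : F[X], a.degree < d → ∑ j ∈ range (d + 1), c j * a ^ Fintype.card F ^ j = 0 := by
  induction d with
  | zero =>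
    refine ⟨fun j => if j = 0 then 1 else 0, by simp, fun j hj => if_neg hj.ne', fun a ha => ?_⟩
    have : a = 0 := by simpa using ha
    simp [this]
  | succ d ih =>
    obtain ⟨c, h1, h2, h3⟩ := ih
    set q := Fintype.card F with hq
    set L : F[X] → F[X] := fun a => ∑ j ∈ range (d + 1), c j * a ^ q ^ j with hL
    set D := L (X ^ d) with hD
    refine ⟨fun j => (if j = 0 then 0 else c (j - 1) ^ q) - D ^ (q - 1) * c j, ?_, ?_, ?_⟩
    · simp [h1, h2]
    · intro j hj
      have hq0 : q ≠ 0 := Fintype.card_ne_zero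
      simp [h2 j (by omega), h2 (j - 1) (by omega), hq0]
    · intro a ha
      have e1 : L a = C (a.coeff d) * D := by
        have ha' : (a - C (a.coeff d) * X ^ d).degree < (d : WithBot ℕ) := by
          rw [degree_lt_iff_coeff_zero]
          intro m hm
          rcases hm.eq_or_lt with rfl | hm
          · simp
          · rw [coeff_sub, coeff_C_mul, coeff_X_pow, if_neg hm.ne', mul_zero, sub_zero]
            exact coeff_eq_zero_of_degree_lt (ha.trans_le (by exact_mod_cast hm))
        have := h3 _ ha'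
        rw [hD, hL]
        simp only [← frob_pow (F := F), hq, map_sub, map_mul, mul_sub, sum_sub_distrib,
          ← algebraMap_eq, AlgHom.commutes] at this ⊢
        rw [sub_eq_zero.1 this, mul_sum]
        exact sum_congr rfl fun j _ => by ring
      have e2 : L a ^ q = ∑ j ∈ range (d + 1), c j ^ q * a ^ q ^ (j + 1) := by
        have := map_sum (FiniteField.frobeniusAlgHom F F[X]) (fun j => c j * a ^ q ^ j)
          (range (d + 1))
        simp only [FiniteField.coe_frobeniusAlgHom] at this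
        refine this.trans (sum_congr rfl fun j _ => ?_)
        rw [mul_pow, ← pow_mul, ← pow_succ]
      have e3 : ∑ j ∈ range (d + 1 + 1), c j * a ^ q ^ j = L a := by
        rw [sum_range_succ, h2 _ (Nat.lt_succ_self d), zero_mul, add_zero]
      simp only [sub_mul, sum_sub_distrib, mul_assoc]
      rw [← mul_sum, e3, sum_range_succ']
      simp only [Nat.add_eq_zero_iff, one_ne_zero, and_false, if_false, Nat.add_sub_cancel, if_true,
        zero_mul, add_zero]
      rw [← e2, e1, mul_pow, ← C_pow, hq, FiniteField.pow_card, ← hq]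
      obtain ⟨r, hr⟩ : ∃ r, q = r + 1 := ⟨q - 1, by have : q ≠ 0 := Fintype.card_ne_zero; omega⟩
      rw [hr, Nat.add_sub_cancel]
      ring

open Classical in
lemma exists_lin' (d : ℕ) : ∃ c : ℕ → F[X], c d = 1 ∧ c 0 = ∏ a ∈ (low F d).erase 0, a ∧
    ∀ a : F[X], a.degree < d → ∑ j ∈ range (d + 1), c j * a ^ Fintype.card F ^ j = 0 := by
  obtain ⟨c, h1, -, h3⟩ := exists_lin (F := F) d
  refine ⟨c, h1, ?_, h3⟩
  set q := Fintype.card F with hq
  have hq1 : 1 < q := Fintype.one_lt_card
  set E : F[X][X] := ∑ j ∈ range (d + 1), C (c j) * X ^ q ^ j with hE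
  have hco : ∀ i, i ≤ d → E.coeff (q ^ i) = c i := fun i hi => by
    rw [hE, finsetSum_coeff, sum_eq_single i]
    · simp
    · intro j _ hj
      rw [coeff_C_mul, coeff_X_pow, if_neg, mul_zero]
      exact fun h => hj (Nat.pow_right_injective hq1 h).symm
    · exact fun h => absurd (mem_range.2 (by omega)) h
  have hdeg : E.natDegree ≤ q ^ d := by
    refine natDegree_sum_le_of_forall_le _ _ fun j hj => (natDegree_C_mul_X_pow_le _ _).trans ?_
    exact Nat.pow_le_pow_right hq1.le (by have := mem_range.1 hj; omega)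
  have hmon : E.Monic := monic_of_natDegree_le_of_coeff_eq_one _ hdeg ((hco d le_rfl).trans h1)
  have hdvd : ∏ a ∈ low F d, (X - C a) ∣ E := by
    refine (Multiset.prod_X_sub_C_dvd_iff_le_roots hmon.ne_zero (low F d).val).2 ?_
    refine (Multiset.le_iff_subset (low F d).nodup).2 fun a ha => (mem_roots hmon.ne_zero).2 ?_
    simpa [hE, IsRoot, eval_finsetSum] using h3 a (mem_low.1 ha)
  have hEq : E = ∏ a ∈ low F d, (X - C a) :=
    eq_of_monic_of_dvd_of_natDegree_le (monic_prod_of_monic _ _ fun a _ => monic_X_sub_C a) hmon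
      hdvd (by rw [natDegree_finsetProd_X_sub_C_eq_card, card_low]; exact hdeg)
  have h0 : (0 : F[X]) ∈ low F d := mem_low.2 (by simp)
  have := hco 0 (Nat.zero_le d)
  rw [← this, hEq, ← mul_prod_erase _ _ h0, pow_zero, map_zero, sub_zero,
    show (1 : ℕ) = 0 + 1 from rfl, coeff_X_mul,
    coeff_zero_eq_eval_zero, eval_prod]
  refine prod_nbij' (fun a => -a) (fun a => -a) ?_ ?_ ?_ ?_ ?_ <;> simp [mem_low]

/-- the differential polynomial that detects the congruence modulo the cube -/
noncomputable def disc (f : F[X]) : F[X] :=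
  hasseDeriv 1 f * hasseDeriv 3 f - 2 * hasseDeriv 2 f ^ 2

section
variable {K : Type} [Field K] [Algebra F K] [Finite K] {θ : K} {P : F[X]} {d : ℕ}

lemma conj_facts (hd : Module.finrank F K = d)
    (hθ : ∀ f g : K →ₐ[F] K, f θ = g θ → f = g) :
    θ ^ Fintype.card F ^ d = θ ∧ ∀ i < d, ∀ j < d,
      θ ^ Fintype.card F ^ i = θ ^ Fintype.card F ^ j → i = j := by
  have ho := (FiniteField.orderOf_frobeniusAlgHom F K).trans hd
  refine ⟨by rw [← frob_pow (F := F), ← ho, pow_orderOf_eq_one]; rfl, fun i hi j hj h => ?_⟩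
  rw [← frob_pow (F := F), ← frob_pow (F := F)] at h
  exact pow_injOn_Iio_orderOf (by simpa [ho] using hi) (by simpa [ho] using hj) (hθ _ _ h)

omit [Finite K] in
open Classical in
lemma cube_dvd (hd2 : 2 ≤ d) (h1 : θ ^ Fintype.card F ^ d = θ)
    (h2 : ∀ i < d, ∀ j < d, θ ^ Fintype.card F ^ i = θ ^ Fintype.card F ^ j → i = j)
    (g : K[X]) (hg : g = ∏ j ∈ Ico 1 d, (X - C (θ ^ Fintype.card F ^ j))) :
    (X - C θ) ^ 3 ∣ (∏ a ∈ (low F d).erase 0, a).map (algebraMap F K) * g + C (g.eval θ) := by
  obtain ⟨c, c1, c0, hc⟩ := exists_lin' (F := F) d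
  set q := Fintype.card F with hq
  have hq1 : 1 < q := Fintype.one_lt_card
  have rel : ∀ h : K[X], h.natDegree < d →
      ∑ j ∈ range (d + 1), (c j).map (algebraMap F K) * h.comp (X ^ q ^ j) = 0 := by
    intro h hh
    rw [h.as_sum_range_C_mul_X_pow' hh]
    simp only [Polynomial.sum_comp, mul_comp, C_comp, pow_comp, X_comp, mul_sum]
    rw [sum_comm]
    refine sum_eq_zero fun k hk => ?_
    have := congrArg (Polynomial.map (algebraMap F K))
      (hc (X ^ k) (by simpa using mem_range.1 hk))
    simp only [Polynomial.map_sum, Polynomial.map_mul, Polynomial.map_pow, map_X,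
      Polynomial.map_zero] at this
    rw [← mul_zero (C (h.coeff k)), ← this, mul_sum]
    exact sum_congr rfl fun j _ => by ring
  have mid : ∀ i ∈ Ico 1 d, X - C θ ∣ (c i).map (algebraMap F K) := by
    intro i hi
    obtain ⟨hi1, hi2⟩ := mem_Ico.1 hi
    have := congrArg (eval θ) (rel (∏ j ∈ (range d).erase i, (X - C (θ ^ q ^ j))) (by
      rw [natDegree_finsetProd_X_sub_C_eq_card, card_erase_of_mem (mem_range.2 hi2), card_range]
      omega))
    simp only [eval_finsetSum, eval_mul, eval_comp, eval_pow, eval_X, eval_prod, eval_sub, eval_C,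
      eval_zero] at this
    rw [sum_eq_single i] at this
    · refine dvd_iff_isRoot.2 ((mul_eq_zero.1 this).resolve_right (prod_ne_zero_iff.2 ?_))
      intro j hj h
      exact (mem_erase.1 hj).1 (h2 i hi2 j (mem_range.1 (mem_erase.1 hj).2) (sub_eq_zero.1 h)).symm
    · intro j hj hji
      rcases (Nat.lt_succ_iff.1 (mem_range.1 hj)).eq_or_lt with rfl | hj
      · rw [prod_eq_zero (i := 0) (mem_erase.2 ⟨by omega, mem_range.2 (by omega)⟩)
          (by rw [h1, pow_zero, pow_one, sub_self]), mul_zero]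
      · rw [prod_eq_zero (i := j) (mem_erase.2 ⟨hji, mem_range.2 hj⟩) (sub_self _), mul_zero]
    · exact fun h => absurd (mem_range.2 (by omega)) h
  have app : ∀ j, (X - C θ) ^ q ^ j ∣ g.comp (X ^ q ^ j) - C (g.eval (θ ^ q ^ j)) := by
    intro j
    have := sub_dvd_eval_sub (X ^ q ^ j) (C (θ ^ q ^ j)) (g.map C)
    rw [eval_map, eval_map, eval₂_at_apply, ← comp, C_pow, ← frob_pow (F := F),
      ← frob_pow (F := F), ← map_sub, frob_pow (F := F)] at this
    rw [← frob_pow (F := F) K[X] j X]
    exact this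
  have hr := rel g (by rw [hg, natDegree_finsetProd_X_sub_C_eq_card, Nat.card_Ico]; omega)
  rw [sum_range_succ, range_eq_Ico, sum_eq_sum_Ico_succ_bot (by omega), c1, c0, pow_zero, pow_one,
    comp_X, Polynomial.map_one, one_mul] at hr
  have e1 : (X - C θ) ^ 3 ∣ ∑ j ∈ Ico (0 + 1) d, (c j).map (algebraMap F K) * g.comp (X ^ q ^ j) := by
    refine dvd_sum fun j hj => ?_
    rw [pow_succ']
    refine mul_dvd_mul (mid j hj) ((pow_dvd_pow _ ?_).trans (?_ : (X - C θ) ^ q ^ j ∣ _))
    · exact hq1.trans_le (Nat.le_self_pow (by have := mem_Ico.1 hj; omega) q)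
    · have := app j
      rwa [show g.eval (θ ^ q ^ j) = 0 by
        rw [hg, eval_prod]; exact prod_eq_zero hj (by simp), map_zero, sub_zero] at this
  have e2 : (X - C θ) ^ 3 ∣ g.comp (X ^ q ^ d) - C (g.eval θ) := by
    have := app d
    rw [h1] at this
    refine (pow_dvd_pow _ ?_).trans this
    calc 3 ≤ 2 ^ 2 := by norm_num
      _ ≤ q ^ 2 := Nat.pow_le_pow_left hq1 2
      _ ≤ q ^ d := Nat.pow_le_pow_right hq1.le hd2
  have := (e1.add e2).neg_right
  rwa [show -(∑ j ∈ Ico (0 + 1) d, (c j).map (algebraMap F K) * g.comp (X ^ q ^ j) +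
    (g.comp (X ^ q ^ d) - C (g.eval θ))) = (∏ a ∈ (low F d).erase 0, a).map (algebraMap F K) * g +
    C (g.eval θ) by linear_combination -hr] at this

end

open Classical in
theorem criterion {P : F[X]} (hm : P.Monic) (hi : Irreducible P) (hd : 2 ≤ P.natDegree)
    (h2 : ¬ P ∣ hasseDeriv 2 P) (h3 : ¬ P ∣ disc P) :
    ∃ w, (∏ a ∈ (low F P.natDegree).erase 0, a) + 1 = P * w ∧ ¬ P ∣ w ∧
      ¬ P ^ 2 ∣ w ^ (Fintype.card F ^ P.natDegree - 1) - 1 := by
  have := Fact.mk hi
  set K := AdjoinRoot P
  set θ : K := AdjoinRoot.root P with hθ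
  set d := P.natDegree with hdd
  set q := Fintype.card F with hq
  set ι := algebraMap F K
  have : Module.Finite F K := hm.finite_adjoinRoot
  have : Finite K := Module.finite_of_finite F
  have hfr : Module.finrank F K = d := by
    rw [(AdjoinRoot.powerBasis hi.ne_zero).finrank, AdjoinRoot.powerBasis_dim]
  have hz : ∀ a : F[X], P ∣ a ↔ (a.map ι).eval θ = 0 := fun a => by
    rw [eval_map_algebraMap, hθ, AdjoinRoot.aeval_eq, AdjoinRoot.mk_eq_zero]
  obtain ⟨c1, c2⟩ := conj_facts (θ := θ) hfr fun f g h => AdjoinRoot.algHom_ext h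
  obtain ⟨g, hg⟩ : ∃ g : K[X], g = ∏ j ∈ Ico 1 d, (X - C (θ ^ q ^ j)) := ⟨_, rfl⟩
  obtain ⟨r, hr⟩ := cube_dvd hd c1 c2 g hg
  have hg0 : g.eval θ ≠ 0 := by
    rw [hg, eval_prod, prod_ne_zero_iff]
    intro j hj h
    obtain ⟨hj1, hj2⟩ := mem_Ico.1 hj
    have := c2 0 (by omega) j hj2 (by simpa [sub_eq_zero] using h)
    omega
  have hP : P.map ι = (X - C θ) * g := by
    have e : (X - C θ) * g = ∏ j ∈ range d, (X - C (θ ^ q ^ j)) := by
      rw [range_eq_Ico, prod_eq_prod_Ico_succ_bot (by omega), pow_zero, pow_one, hg]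
    rw [e]
    refine eq_of_monic_of_dvd_of_natDegree_le (monic_prod_of_monic _ _ fun a _ => monic_X_sub_C _)
      (hm.map ι) ?_ (by rw [natDegree_finsetProd_X_sub_C_eq_card, card_range, natDegree_map])
    refine Finset.prod_dvd_of_coprime (fun i hi j hj hij => ?_) fun j _ => ?_
    · exact isCoprime_X_sub_C_of_isUnit_sub (IsUnit.mk0 _ fun h => hij
        (c2 i (by simpa using hi) j (by simpa using hj) (sub_eq_zero.1 h)))
    · rw [dvd_iff_isRoot, IsRoot, eval_map_algebraMap, ← frob_pow (F := F), aeval_algHom_apply,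
        ← eval_map_algebraMap, (hz P).1 dvd_rfl, map_zero]
  set Φ := ∏ a ∈ (low F d).erase 0, a
  obtain ⟨w, hw⟩ : P ∣ Φ + 1 := by
    rw [hz]
    have := congrArg (eval θ) hr
    simp only [eval_add, eval_mul, eval_C, eval_pow, eval_sub, eval_X, sub_self] at this
    refine (mul_eq_zero.1 (?_ : _ * g.eval θ = 0)).resolve_right hg0
    simp only [Polynomial.map_add, Polynomial.map_one, eval_add, eval_one]
    linear_combination this
  have hw' := congrArg (Polynomial.map ι) hw
  rw [Polynomial.map_add, Polynomial.map_one, Polynomial.map_mul, hP] at hw'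
  have key : (X - C θ) * (g * g * w.map ι) = g - C (g.eval θ) + (X - C θ) ^ 3 * r := by
    linear_combination hr - g * hw'
  have k2 := congrArg (taylor θ) key
  have k3 := congrArg (taylor θ) hP
  simp only [taylor_mul, map_add, map_sub, taylor_X, taylor_C, add_sub_cancel_right,
    taylor_pow] at k2 k3
  set G := taylor θ g
  set W := taylor θ (w.map ι) with hW
  have a : ∀ k, ((hasseDeriv (k + 1) P).map ι).eval θ = G.coeff k := fun k => by
    rw [← coeff_X_mul, ← k3, taylor_coeff]
    congr 1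
    ext n
    simp [hasseDeriv_coeff]
  have b0 := congrArg (coeff · (0 + 1)) k2
  have b1 := congrArg (coeff · (1 + 1)) k2
  simp only [coeff_X_mul, coeff_add, coeff_sub, coeff_C, coeff_X_pow_mul', mul_coeff_zero,
    mul_coeff_one] at b0 b1
  norm_num at b0 b1
  have w0 : W.coeff 0 ≠ 0 := fun h => h2 ((hz _).2 (by rw [a 1, ← b0, h, mul_zero]))
  have w1 : W.coeff 1 ≠ 0 := fun h => h3 ((hz _).2 (by
    simp only [disc, Polynomial.map_sub, Polynomial.map_mul, Polynomial.map_pow, eval_sub,
      eval_mul, eval_pow, Polynomial.map_ofNat, eval_ofNat]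
    rw [a 0, a 1, a 2]
    rw [h] at b1
    linear_combination -(G.coeff 0) * b1 + 2 * G.coeff 1 * b0))
  rw [hW, taylor_coeff_zero] at w0
  rw [hW, taylor_coeff_one, derivative_map] at w1
  refine ⟨w, hw, fun h => w0 ((hz _).1 h), fun h => ?_⟩
  have h' : P ∣ derivative (w ^ (q ^ d - 1) - 1) := by
    simpa using pow_sub_one_dvd_derivative_of_pow_dvd h
  have := (hz _).1 h'
  have hq0 : ((q ^ d - 1 : ℕ) : F) = -1 := by
    rw [Nat.cast_sub (Nat.one_le_pow _ _ Fintype.card_pos), Nat.cast_pow,
      FiniteField.cast_card_eq_zero, zero_pow (by omega), Nat.cast_one, zero_sub]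
  rw [derivative_sub, derivative_one, sub_zero, derivative_pow, hq0] at this
  simp [w0, w1] at this

end Pool.Agent.Lib.MP_fe1952_nt
end

-- part Pool.Agent.Lib.MP_fe1952_nt.Count
section

/-! Counting the primes of `F[X]` that divide their own differential discriminant. -/

open Polynomial Finset Filter Topology

namespace Pool.Agent.Lib.MP_fe1952_nt

variable {F : Type} [Field F] [Fintype F]

open Classical in
lemma shift_count (d r : ℕ) (B H : Finset F[X]) (s : F[X] → F[X]) (hB : B ⊆ low F d)
    (hs : ∀ h ∈ H, s h ∈ low F d) (hr : ∀ f, (H.filter fun h => f + s h ∈ B).card ≤ r) :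
    B.card * H.card ≤ r * Fintype.card F ^ d := by
  rw [← card_product, ← card_low]
  refine card_le_mul_card_image_of_maps_to (f := fun x : F[X] × F[X] => x.1 - s x.2)
    (fun x hx => ?_) r fun f _ => le_trans ?_ (hr f)
  · obtain ⟨h1, h2⟩ := mem_product.1 hx
    exact mem_low.2 ((degree_sub_le _ _).trans_lt
      (max_lt (mem_low.1 (hB h1)) (mem_low.1 (hs _ h2))))
  · refine card_le_card_of_injOn Prod.snd (fun x hx => ?_) fun x hx y hy e => ?_
    · obtain ⟨h1, h2⟩ := mem_filter.1 (mem_coe.1 hx)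
      refine mem_coe.2 (mem_filter.2 ⟨(mem_product.1 h1).2, ?_⟩)
      rw [← h2, sub_add_cancel]
      exact (mem_product.1 h1).1
    · have h1 := (mem_filter.1 (mem_coe.1 hx)).2
      have h2 := (mem_filter.1 (mem_coe.1 hy)).2
      refine Prod.ext ?_ e
      rw [e] at h1
      exact sub_left_injective (h1.trans h2.symm)

omit [Fintype F] in
lemma hasse_expand {p : ℕ} (hp : (p : F) = 0) (hp0 : 0 < p) (h : F[X]) {k : ℕ} (hk : k < 3) :
    hasseDeriv (k + 1) (expand F (6 * p) h) = 0 := by
  ext n
  rw [hasseDeriv_coeff, coeff_expand (by omega), coeff_zero]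
  split_ifs with hd
  · obtain ⟨c, hc⟩ := hd
    obtain ⟨e, he⟩ : k + 1 ∣ 6 := by interval_cases k <;> norm_num
    have h1 := Nat.add_one_mul_choose_eq (n + k) k
    have h2 : (n + (k + 1)).choose (k + 1) = p * (e * c * (n + k).choose k) := by
      refine Nat.eq_of_mul_eq_mul_right (Nat.succ_pos k) ?_
      rw [← add_assoc, ← h1, add_assoc, hc, he]
      simp only [Nat.succ_eq_add_one]
      ring
    rw [h2, Nat.cast_mul, hp, zero_mul, zero_mul]
  · rw [mul_zero]

omit [Fintype F] in
lemma hasse_mul {z : F[X]} (hz : ∀ k < 3, hasseDeriv (k + 1) z = 0) (g : F[X]) {k : ℕ}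
    (hk : k ≤ 3) : hasseDeriv k (g * z) = hasseDeriv k g * z := by
  rw [hasseDeriv_mul, sum_eq_single (k, 0)]
  · simp
  · rintro ⟨i, j⟩ hij hne
    have := mem_antidiagonal.1 hij
    obtain ⟨j, rfl⟩ : ∃ j', j = j' + 1 := ⟨j - 1, by
      have : j ≠ 0 := by rintro rfl; simp_all
      omega⟩
    rw [hz j (by simp only at this; omega), mul_zero]
  · simp

lemma shift_low {N m d : ℕ} (hN : 3 ≤ N) (hm : N * m ≤ d) {g h : F[X]} (hg : g.natDegree ≤ 3)
    (hh : h ∈ low F m) : g * expand F N h ∈ low F (d + 1) := by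
  rw [mem_low] at hh ⊢
  rcases eq_or_ne h 0 with rfl | h0
  · simp
  have h1 : h.natDegree < m := (natDegree_lt_iff_degree_lt h0).2 hh
  refine degree_le_natDegree.trans_lt (Nat.cast_lt.2 (natDegree_mul_le.trans_lt ?_))
  rw [natDegree_expand]
  nlinarith

open Classical in
lemma count_zero {p m d : ℕ} (hp : (p : F) = 0) (hp0 : 0 < p) (hm : 6 * p * m ≤ d) :
    ((low F (d + 1)).filter fun f => hasseDeriv 2 f * disc f = 0).card * Fintype.card F ^ m ≤
      3 * Fintype.card F ^ (d + 1) := by
  rw [← card_low m]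
  refine shift_count _ _ _ _ (fun h => (X ^ 2 + X ^ 3) * expand F (6 * p) h) (filter_subset _ _)
    (fun h hh => shift_low (by omega) hm (by compute_degree) hh) fun f => ?_
  set Q : F[X][X] := (C (1 + 3 * X) * X + C (hasseDeriv 2 f)) *
    (C (-2 - 10 * X - 15 * X ^ 2) * X ^ 2 + C (hasseDeriv 1 f + (2 * X + 3 * X ^ 2) * hasseDeriv 3 f
      - 4 * (1 + 3 * X) * hasseDeriv 2 f) * X + C (disc f)) with hQ
  have hQ0 : Q ≠ 0 := by
    refine mul_ne_zero (fun h => ?_) fun h => ?_
    · have := congrArg (fun t : F[X][X] => (t.coeff 1).coeff 0) h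
      simp at this
    · have h0 := congrArg (fun t : F[X][X] => (t.coeff 2).coeff 0) h
      have h2 := congrArg (fun t : F[X][X] => (t.coeff 2).coeff 2) h
      simp only [coeff_add, coeff_C_mul, coeff_X_pow, coeff_C, coeff_X, coeff_zero] at h0 h2
      norm_num [coeff_X, coeff_X_pow] at h0 h2
      exact one_ne_zero (by linear_combination h2 - 7 * h0 : (1 : F) = 0)
  have hQd : Q.natDegree ≤ 3 := by
    rw [hQ]
    compute_degree
  refine le_trans ?_ (((Multiset.toFinset_card_le Q.roots).trans (card_roots' Q)).trans hQd)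
  refine card_le_card_of_injOn (expand F (6 * p)) (fun h hh => ?_)
    (expand_injective (by omega)).injOn
  have h1 := (mem_filter.1 (mem_filter.1 (mem_coe.1 hh)).2).2
  have hz := fun k hk => hasse_expand hp hp0 h (k := k) hk
  rw [mem_coe, Multiset.mem_toFinset, mem_roots hQ0, IsRoot, ← h1]
  have e1 : hasseDeriv 1 (X ^ 2 + X ^ 3 : F[X]) = 2 * X + 3 * X ^ 2 := by
    simp only [hasseDeriv_one', map_add, derivative_X_pow, Nat.cast_ofNat, map_ofNat]
    norm_num
  have e2 : hasseDeriv 2 (X ^ 2 + X ^ 3 : F[X]) = 1 + 3 * X := by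
    simp only [map_add, X_pow_eq_monomial, hasseDeriv_monomial]
    simp [← C_mul_X_pow_eq_monomial, map_ofNat]
  have e3 : hasseDeriv 3 (X ^ 2 + X ^ 3 : F[X]) = 1 := by
    simp only [map_add, X_pow_eq_monomial, hasseDeriv_monomial]
    simp
  simp only [hQ, disc, eval_mul, eval_add, eval_C, eval_X, eval_pow]
  rw [map_add (hasseDeriv 1) f, map_add (hasseDeriv 2) f, map_add (hasseDeriv 3) f,
    hasse_mul hz _ (by norm_num), hasse_mul hz _ (by norm_num), hasse_mul hz _ le_rfl, e1, e2, e3]
  ring

open Classical in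
lemma count_dvd {p m d : ℕ} (hp : (p : F) = 0) (hp0 : 0 < p) (hm : 6 * p * m ≤ d) :
    ((low F (d + 1)).filter fun f => f.Monic ∧ Irreducible f ∧ f.natDegree = d ∧ disc f ≠ 0 ∧
      f ∣ disc f).card * Fintype.card F ^ m ≤ 1 * Fintype.card F ^ (d + 1) := by
  rw [← card_low m]
  refine shift_count _ _ _ _ (fun h => 1 * expand F (6 * p) h) (filter_subset _ _)
    (fun h hh => shift_low (by omega) hm (by simp) hh) fun f => card_le_one.2 ?_
  have hd : ∀ h, disc (f + 1 * expand F (6 * p) h) = disc f := fun h => by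
    have hz := fun k hk => hasse_expand hp hp0 h (k := k) hk
    simp only [disc, one_mul, map_add]
    rw [hz 0 (by norm_num), hz 1 (by norm_num), hz 2 (by norm_num)]
    simp
  intro a ha b hb
  obtain ⟨a1, a2, a3, a4, a5⟩ := (mem_filter.1 (mem_filter.1 ha).2).2
  obtain ⟨b1, b2, b3, -, b5⟩ := (mem_filter.1 (mem_filter.1 hb).2).2
  by_contra hab
  rw [hd b, ← hd a] at b5
  set A := f + 1 * expand F (6 * p) a with hA
  set B := f + 1 * expand F (6 * p) b with hB
  have hc : IsCoprime A B := by
    refine a2.coprime_iff_not_dvd.2 fun h => hab (expand_injective (R := F) (n := 6 * p) (by omega) ?_)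
    have := eq_of_monic_of_dvd_of_natDegree_le a1 b1 h (by omega)
    rw [hA, hB] at this
    simpa using this.symm
  have h1 := natDegree_le_of_dvd (hc.mul_dvd a5 b5) a4
  rw [a1.natDegree_mul b1, a3, b3] at h1
  have h2 : (disc A).natDegree ≤ d - 1 + (d - 2) := by
    have t := fun k => a3 ▸ natDegree_hasseDeriv_le A k
    refine (natDegree_sub_le _ _).trans (max_le (natDegree_mul_le.trans ?_)
      (natDegree_mul_le.trans ?_))
    · have := t 1; have := t 3; omega
    · have h3 := natDegree_pow_le (p := hasseDeriv 2 A) (n := 2)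
      have h4 : (2 : F[X]).natDegree = 0 := natDegree_ofNat 2
      have := t 2
      omega
  have := a2.natDegree_pos
  omega

open Classical in
lemma count_primes {d : ℕ} (hd : 0 < d) :
    Fintype.card F ^ d ≤ d * (((low F (d + 1)).filter fun f => f.Monic ∧ Irreducible f ∧
      f.natDegree = d).card + Fintype.card F ^ (d / 2 + 1)) := by
  obtain ⟨p, hp⟩ := CharP.exists F
  have := Fact.mk (CharP.char_is_prime F p)
  have := NeZero.mk hd.ne'
  set K := FiniteField.Extension F p d
  have := Fintype.ofFinite K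
  have hK : Fintype.card K = Fintype.card F ^ d := by
    rw [← Nat.card_eq_fintype_card, FiniteField.natCard_extension, Nat.card_eq_fintype_card]
  have hr := FiniteField.finrank_extension F p d
  rw [← hK, ← card_low, ← card_univ]
  refine (card_le_mul_card_image_of_maps_to (f := minpoly F) (fun x _ => ?_) d
    fun f hf => ?_).trans (Nat.mul_le_mul_left _ (card_union_le _ _))
  · have hx : IsIntegral F x := .of_finite F x
    have h1 := minpoly.degree_dvd hx
    rw [hr] at h1
    have h2 := Nat.le_of_dvd hd h1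
    rcases h2.eq_or_lt with h | h
    · exact mem_union_left _ (mem_filter.2 ⟨mem_low.2 (degree_le_natDegree.trans_lt
        (Nat.cast_lt.2 (by omega))), minpoly.monic hx, minpoly.irreducible hx, h⟩)
    · refine mem_union_right _ (mem_low.2 (degree_le_natDegree.trans_lt (Nat.cast_lt.2 ?_)))
      obtain ⟨c, hc⟩ := h1
      have : 2 ≤ c := by
        by_contra hc2
        interval_cases c <;> omega
      have : (minpoly F x).natDegree * 2 ≤ d := (Nat.mul_le_mul_left _ this).trans hc.ge
      omega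
  · rcases (univ.filter fun x : K => minpoly F x = f).eq_empty_or_nonempty with h | ⟨x, hx⟩
    · simp [h]
    have hx := (mem_filter.1 hx).2
    have hi : IsIntegral F x := .of_finite F x
    have h0 : f.map (algebraMap F K) ≠ 0 := map_ne_zero (hx ▸ minpoly.ne_zero hi)
    refine (card_le_degree_of_subset_roots (p := f.map (algebraMap F K)) fun y hy => ?_).trans ?_
    · rw [mem_roots h0, IsRoot, eval_map_algebraMap, ← (mem_filter.1 hy).2, minpoly.aeval]
    · rw [natDegree_map, ← hx]
      exact (minpoly.natDegree_le x).trans hr.le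

end Pool.Agent.Lib.MP_fe1952_nt
end
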